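import Mathlib

/-!
# A connected smooth quandle which does not embed in any group

The quandle of flags (a point on a line) of the Euclidean plane: `x ▷ y` is the mirror image of the
flag `x` in the line of the flag `y`. The flag `(u, w)` in `Circle × ℂ` is the point `w` on the line
through `w` which is the fixed set of the reflection `z ↦ w + conj (z - w) * u⁻¹`.

If `x` and `y` are flags with perpendicular lines, and the point of `x`, but not the point of `y`, is
the intersection of the two lines, then `x ▷ y = x` and `y ▷ x ≠ y`. In a conjugation quandle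
`x ▷ y = x` holds if and only if `x` and `y` commute.
-/

set_option autoImplicit false

open scoped Manifold ContDiff ComplexConjugate

namespace Pool.Agent.Results.MP_a41668_al.FlagQuandle

/-- `(X, op)` is a quandle, where `op x y` is `x ▷ y`. -/
structure IsQuandle {X : Type*} (op : X → X → X) : Prop where
  idem : ∀ x, op x x = x
  bij : ∀ y, Function.Bijective fun x => op x y
  dist : ∀ x y z, op (op x y) z = op (op x z) (op y z)

/-- The group `Inn X` generated by the maps `x ↦ x ▷ y`. -/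
noncomputable def Inn {X : Type*} {op : X → X → X} (h : IsQuandle op) : Subgroup (Equiv.Perm X) :=
  Subgroup.closure (Set.range fun y => Equiv.ofBijective (fun x => op x y) (h.bij y))

/-- `X` with the operation `op` is a smooth quandle (of finite dimension, without boundary, Hausdorff and
second countable) which is topologically connected and algebraically connected. -/
structure IsConnectedSmoothQuandle {E H X : Type*} [NormedAddCommGroup E] [NormedSpace ℝ E]
    [TopologicalSpace H] (I : ModelWithCorners ℝ E H) [TopologicalSpace X] [ChartedSpace H X]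
    (op : X → X → X) : Prop where
  finite : FiniteDimensional ℝ E
  boundaryless : I.Boundaryless
  t2 : T2Space X
  countable : SecondCountableTopology X
  manifold : IsManifold I ∞ X
  smooth : ContMDiff (I.prod I) I ∞ fun p : X × X => op p.1 p.2
  quandle : IsQuandle op
  top_connected : ConnectedSpace X
  alg_connected : ∀ x x' : X, ∃ g ∈ Inn quandle, g x = x'

/-- `ι` is a quandle homomorphism to the conjugation quandle of the group `G`. -/
def IsConjHom {X G : Type*} [Group G] (op : X → X → X) (ι : X → G) : Prop :=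
  ∀ x y, ι (op x y) = (ι y)⁻¹ * ι x * ι y

/-- There are a Lie group `G` and a smooth embedding `X → G` which is a quandle homomorphism to the
conjugation quandle of `G`. -/
def EmbedsInLieGroup {E H X : Type*} [NormedAddCommGroup E] [NormedSpace ℝ E]
    [TopologicalSpace H] (I : ModelWithCorners ℝ E H) [TopologicalSpace X] [ChartedSpace H X]
    (op : X → X → X) : Prop :=
  ∃ (m : ℕ) (G : Type) (_ : TopologicalSpace G) (_ : ChartedSpace (EuclideanSpace ℝ (Fin m)) G)
    (_ : Group G) (_ : LieGroup (𝓡 m) ∞ G) (ι : X → G),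
    Manifold.IsSmoothEmbedding I (𝓡 m) ∞ ι ∧ IsConjHom op ι

/-- The quandle of flags of the Euclidean plane. -/
noncomputable def flagOp (x y : Circle × ℂ) : Circle × ℂ :=
  (y.1 ^ 2 * x.1⁻¹, y.2 + (conj x.2 - conj y.2) * ((y.1⁻¹ : Circle) : ℂ))

theorem coe_mul_conj (u : Circle) : (u : ℂ) * conj (u : ℂ) = 1 := by
  rw [← Circle.coe_inv_eq_conj, ← Circle.coe_mul, mul_inv_cancel, Circle.coe_one]

theorem grp1 {G : Type*} [CommGroup G] (x y : G) : y ^ 2 * (y ^ 2 * x⁻¹)⁻¹ = x := by
  rw [mul_inv, inv_inv, ← mul_assoc, mul_inv_cancel, one_mul]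

theorem grp2 {G : Type*} [CommGroup G] (x y z : G) :
    z ^ 2 * (y ^ 2 * x⁻¹)⁻¹ = (z ^ 2 * y⁻¹) ^ 2 * (z ^ 2 * x⁻¹)⁻¹ := by
  rw [mul_inv, inv_inv, mul_inv, inv_inv, mul_pow, inv_pow, pow_two (z ^ 2)]
  have : z ^ 2 * z ^ 2 * (y ^ 2)⁻¹ * ((z ^ 2)⁻¹ * x) =
      z ^ 2 * (z ^ 2 * (z ^ 2)⁻¹) * ((y ^ 2)⁻¹ * x) := by ac_rfl
  rw [this, mul_inv_cancel, mul_one]

theorem conj_two : conj (2 : ℂ) = 2 := map_ofNat (starRingEnd ℂ) 2

theorem flag_idem (x : Circle × ℂ) : flagOp x x = x := by
  ext1
  · simp only [flagOp]; rw [pow_two, mul_assoc, mul_inv_cancel, mul_one]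
  · simp [flagOp]

theorem flag_invol (x y : Circle × ℂ) : flagOp (flagOp x y) y = x := by
  ext1
  · exact grp1 _ _
  · have h := coe_mul_conj y.1
    simp only [flagOp, Circle.coe_inv_eq_conj, map_add, map_sub, map_mul, Complex.conj_conj]
    linear_combination (x.2 - y.2) * h

theorem flag_dist (x y z : Circle × ℂ) :
    flagOp (flagOp x y) z = flagOp (flagOp x z) (flagOp y z) := by
  ext1
  · exact grp2 _ _ _
  · have hy := coe_mul_conj y.1
    have hz := coe_mul_conj z.1
    simp only [flagOp, Circle.coe_inv_eq_conj, map_add, map_sub, map_mul, Complex.conj_conj,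
      Circle.coe_mul, Circle.coe_pow, map_pow]
    linear_combination (-(x.2 - y.2) * (y.1 : ℂ) * conj (z.1 : ℂ)) * hz

theorem flag_quandle : IsQuandle flagOp where
  idem := flag_idem
  bij y := (show Function.Involutive fun x => flagOp x y from fun x => flag_invol x y).bijective
  dist := flag_dist

/-- being in one orbit of the inner automorphism group -/
def Rel (x x' : Circle × ℂ) : Prop := ∃ g ∈ Inn flag_quandle, g x = x'

theorem Rel.trans {x y z : Circle × ℂ} (h : Rel x y) (h' : Rel y z) : Rel x z := by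
  obtain ⟨g, hg, rfl⟩ := h
  obtain ⟨g', hg', rfl⟩ := h'
  exact ⟨g' * g, mul_mem hg' hg, rfl⟩

theorem rel_op (x y : Circle × ℂ) : Rel x (flagOp x y) :=
  ⟨Equiv.ofBijective (fun x => flagOp x y) (flag_quandle.bij y),
    Subgroup.subset_closure ⟨y, rfl⟩, rfl⟩

theorem rel_im (u : Circle) (w : ℂ) (b : ℝ) : Rel (u, w) (u, w + b * Complex.I) := by
  have h := (rel_op (u, w) (1, 0)).trans (rel_op (flagOp (u, w) (1, 0)) (1, (b / 2 : ℝ) * Complex.I))
  convert h using 1
  ext1
  · simp [flagOp]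
  · simp only [flagOp]
    simp [conj_two]
    ring

theorem rel_re (u : Circle) (w : ℂ) (b : ℝ) : Rel (u, w) (u, w + b) := by
  have h := (rel_op (u, w) (-1, 0)).trans (rel_op (flagOp (u, w) (-1, 0)) (-1, (b / 2 : ℝ)))
  convert h using 1
  ext1
  · simp [flagOp]
  · simp only [flagOp]
    simp [conj_two]
    ring

theorem exists_sq (u : Circle) : ∃ c : Circle, c ^ 2 = u := by
  refine ⟨Circle.exp (Complex.arg u / 2), ?_⟩
  rw [← Circle.exp_nsmul, nsmul_eq_mul]
  have : ((2 : ℕ) : ℝ) * (Complex.arg u / 2) = Complex.arg u := by push_cast; ring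
  rw [this, Circle.exp_arg]

theorem rel_all (x x' : Circle × ℂ) : Rel x x' := by
  obtain ⟨c, hc⟩ := exists_sq (x'.1 * x.1)
  refine (rel_op x (c, 0)).trans ?_
  have h1 : (flagOp x (c, 0)).1 = x'.1 := by
    simp only [flagOp]
    rw [hc, mul_assoc, mul_inv_cancel, mul_one]
  set y := flagOp x (c, 0) with hy
  have h2 := (rel_re y.1 y.2 (x'.2 - y.2).re).trans
    (rel_im y.1 (y.2 + ((x'.2 - y.2).re : ℝ)) (x'.2 - y.2).im)
  have h3 : y.2 + ((x'.2 - y.2).re : ℝ) + ((x'.2 - y.2).im : ℝ) * Complex.I = x'.2 := by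
    rw [add_assoc, Complex.re_add_im]; ring
  rw [h3, h1] at h2
  have h4 : y = (x'.1, y.2) := by rw [← h1]
  have h5 : x' = (x'.1, x'.2) := rfl
  rw [h4, h5]
  exact h2

theorem coe_smooth : ContMDiff (𝓡 1) 𝓘(ℝ, ℂ) ∞ (fun u : Circle => (u : ℂ)) := by
  have : Fact (Module.finrank ℝ ℂ = 1 + 1) := ⟨Complex.finrank_real_complex⟩
  exact contMDiff_coe_sphere

theorem aux_smooth : ContDiff ℝ ∞ fun p : ℂ × ℂ × ℂ => p.2.1 + (conj p.1 - conj p.2.1) * p.2.2 := by
  have h : ContDiff ℝ ∞ (fun z : ℂ => conj z) := Complex.conjCLE.contDiff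
  have h1 : ContDiff ℝ ∞ fun p : ℂ × ℂ × ℂ => conj p.1 := h.comp contDiff_fst
  have h2 : ContDiff ℝ ∞ fun p : ℂ × ℂ × ℂ => conj p.2.1 := h.comp (contDiff_fst.comp contDiff_snd)
  exact (contDiff_fst.comp contDiff_snd).add ((h1.sub h2).mul (contDiff_snd.comp contDiff_snd))

theorem flag_smooth : ContMDiff (((𝓡 1).prod 𝓘(ℝ, ℂ)).prod ((𝓡 1).prod 𝓘(ℝ, ℂ)))
    ((𝓡 1).prod 𝓘(ℝ, ℂ)) ∞ fun p : (Circle × ℂ) × (Circle × ℂ) => flagOp p.1 p.2 := by
  have a1 : ContMDiff (((𝓡 1).prod 𝓘(ℝ, ℂ)).prod ((𝓡 1).prod 𝓘(ℝ, ℂ))) (𝓡 1) ∞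
      fun p : (Circle × ℂ) × (Circle × ℂ) => p.1.1 := contMDiff_fst.comp contMDiff_fst
  have a2 : ContMDiff (((𝓡 1).prod 𝓘(ℝ, ℂ)).prod ((𝓡 1).prod 𝓘(ℝ, ℂ))) 𝓘(ℝ, ℂ) ∞
      fun p : (Circle × ℂ) × (Circle × ℂ) => p.1.2 := contMDiff_snd.comp contMDiff_fst
  have b1 : ContMDiff (((𝓡 1).prod 𝓘(ℝ, ℂ)).prod ((𝓡 1).prod 𝓘(ℝ, ℂ))) (𝓡 1) ∞
      fun p : (Circle × ℂ) × (Circle × ℂ) => p.2.1 := contMDiff_fst.comp contMDiff_snd
  have b2 : ContMDiff (((𝓡 1).prod 𝓘(ℝ, ℂ)).prod ((𝓡 1).prod 𝓘(ℝ, ℂ))) 𝓘(ℝ, ℂ) ∞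
      fun p : (Circle × ℂ) × (Circle × ℂ) => p.2.2 := contMDiff_snd.comp contMDiff_snd
  refine ContMDiff.prodMk ?_ ?_
  · exact (b1.pow 2).mul a1.inv
  · have c1 := coe_smooth.comp b1.inv
    have c2 := ContMDiff.prodMk_space a2 (ContMDiff.prodMk_space b2 c1)
    exact aux_smooth.contMDiff.comp c2

/-- The flag quandle has no injective quandle homomorphism to a conjugation quandle. -/
theorem not_injective {G : Type*} [Group G] (ι : Circle × ℂ → G) (h : IsConjHom flagOp ι) :
    ¬ Function.Injective ι := by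
  intro hi
  have e1 : flagOp (-1, 0) (1, 1) = (-1, 0) := by
    ext1
    · simp [flagOp]
    · simp [flagOp]
  have e2 : flagOp (1, 1) (-1, 0) = (1, -1) := by
    ext1
    · simp [flagOp]
    · simp [flagOp]
  have h1 := h (-1, 0) (1, 1)
  have h2 := h (1, 1) (-1, 0)
  rw [e1] at h1
  have h3 : ι (1, 1) * ι (-1, 0) = ι (-1, 0) * ι (1, 1) := by
    conv_lhs => rw [h1]
    group
  have h4 : (ι (-1, 0))⁻¹ * ι (1, 1) * ι (-1, 0) = ι (1, 1) := by
    rw [mul_assoc, h3, inv_mul_cancel_left]
  rw [h4, e2] at h2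
  have h5 := congrArg Prod.snd (hi h2)
  simp only at h5
  norm_num [Complex.ext_iff] at h5

universe u

/-- Q1 of MP_a41668_al has a negative answer: the flag quandle, on the manifold `Circle × ℂ`, is a
topologically connected and algebraically connected smooth quandle, there is no smooth embedding of
it into a Lie group which is a homomorphism to the conjugation quandle, and there is not even an
injective quandle homomorphism to the conjugation quandle of any group. -/
theorem result : ∃ op : Circle × ℂ → Circle × ℂ → Circle × ℂ,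
    IsConnectedSmoothQuandle ((𝓡 1).prod 𝓘(ℝ, ℂ)) op ∧
      ¬ EmbedsInLieGroup ((𝓡 1).prod 𝓘(ℝ, ℂ)) op ∧
      ∀ (G : Type u) [Group G] (ι : Circle × ℂ → G), IsConjHom op ι → ¬ Function.Injective ι := by
  refine ⟨flagOp, ?_, ?_, fun G _ ι h => not_injective ι h⟩
  · exact
      { finite := inferInstance
        boundaryless := inferInstance
        t2 := inferInstance
        countable := inferInstance
        manifold := inferInstance
        smooth := flag_smooth
        quandle := flag_quandle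
        top_connected := inferInstance
        alg_connected := rel_all }
  · rintro ⟨m, G, _, _, _, _, ι, h1, h2⟩
    exact not_injective ι h2 h1.isEmbedding.injective

end Pool.Agent.Results.MP_a41668_al.FlagQuandle
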